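import Pool.Agent.KS6_3.ZL.H387R3.ZT.Stmts2
import Pool.Agent.KS6_3.ZL.H525R3.FFp.Div

/-! Places of a constant extension `F[X]/f` from roots of `f` in the residue field. -/

set_option autoImplicit false

open Polynomial

namespace Pool.Agent.H123R3.ZT

section small

variable {k F : Type} [Field k] [Field F] [Algebra k F] (P : FF.Place k F)

/-- `x = 0` or `N ≤ ord x` -/
def Sm (N : ℤ) (x : F) : Prop := x = 0 ∨ N ≤ P.ord x

theorem sm_zero (N : ℤ) : Sm P N 0 := Or.inl rfl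

theorem sm_mono {N M : ℤ} (h : M ≤ N) {x : F} (hx : Sm P N x) : Sm P M x := by
  rcases hx with hx | hx
  · exact Or.inl hx
  · exact Or.inr (h.trans hx)

theorem sm_add {N : ℤ} {x y : F} (hx : Sm P N x) (hy : Sm P N y) : Sm P N (x + y) := by
  by_cases h1 : x = 0
  · rwa [h1, zero_add]
  by_cases h2 : y = 0
  · rwa [h2, add_zero]
  by_cases h3 : x + y = 0
  · exact Or.inl h3
  have a := hx.resolve_left h1
  have b := hy.resolve_left h2
  exact Or.inr ((le_min a b).trans (P.ord_add h1 h2 h3))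

theorem sm_mul {N M : ℤ} {x y : F} (hx : Sm P N x) (hy : Sm P M y) : Sm P (N + M) (x * y) := by
  by_cases h1 : x = 0
  · left; rw [h1, zero_mul]
  by_cases h2 : y = 0
  · left; rw [h2, mul_zero]
  have a := hx.resolve_left h1
  have b := hy.resolve_left h2
  right
  rw [P.ord_mul h1 h2]
  omega

theorem sm_neg {N : ℤ} {x : F} (hx : Sm P N x) : Sm P N (-x) := by
  rcases hx with rfl | hx
  · left; simp
  · right; rwa [P.ord_neg]

theorem sm_sub {N : ℤ} {x y : F} (hx : Sm P N x) (hy : Sm P N y) : Sm P N (x - y) := by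
  rw [sub_eq_add_neg]
  exact sm_add P hx (sm_neg P hy)

theorem sm_ord (x : F) : Sm P (P.ord x) x := Or.inr le_rfl

theorem reg_iff_sm (x : F) : P.Reg x ↔ Sm P 0 x := Iff.rfl

/-- polynomials are bounded and Lipschitz on the valuation ring -/
theorem poly_bound (g : F[X]) : ∃ B : ℤ, (∀ x, P.Reg x → Sm P (-B) (g.eval x)) ∧
    ∀ x y, P.Reg x → P.Reg y → ∃ q, Sm P (-B) q ∧ g.eval x - g.eval y = (x - y) * q := by
  induction g using Polynomial.induction_on with
  | C a =>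
    refine ⟨- P.ord a, fun x _ => ?_, fun x y _ _ => ⟨0, Or.inl rfl, by simp⟩⟩
    rw [neg_neg, eval_C]
    exact sm_ord P a
  | add p q hp hq =>
    obtain ⟨B1, h1, h2⟩ := hp
    obtain ⟨B2, h3, h4⟩ := hq
    refine ⟨max B1 B2, fun x hx => ?_, fun x y hx hy => ?_⟩
    · rw [eval_add]
      exact sm_add P (sm_mono P (by omega) (h1 x hx)) (sm_mono P (by omega) (h3 x hx))
    · obtain ⟨q1, a1, a2⟩ := h2 x y hx hy
      obtain ⟨q2, a3, a4⟩ := h4 x y hx hy
      refine ⟨q1 + q2, sm_add P (sm_mono P (by omega) a1) (sm_mono P (by omega) a3), ?_⟩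
      rw [eval_add, eval_add, mul_add, ← a2, ← a4]
      ring
  | monomial n a h =>
    obtain ⟨B, h1, h2⟩ := h
    have e : ∀ z : F, (C a * X ^ (n + 1)).eval z = (C a * X ^ n).eval z * z := by
      intro z
      rw [pow_succ, ← mul_assoc, eval_mul_X]
    refine ⟨B, fun x hx => ?_, fun x y hx hy => ?_⟩
    · have := sm_mul P (h1 x hx) hx
      rw [e]
      simpa using this
    · obtain ⟨q, a1, a2⟩ := h2 x y hx hy
      refine ⟨(C a * X ^ n).eval x + y * q, sm_add P (h1 x hx) ?_, ?_⟩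
      · have := sm_mul P hy a1
        simpa using this
      · rw [e, e, mul_add, mul_left_comm, ← a2]
        ring

end small

section ext

variable {k F : Type} [Field k] [Field F] [Algebra k F] (P : FF.Place k F) (f : F[X])
  (c : ℕ → F)

/-- approximate zeros -/
structure Approx : Prop where
  irr : Irreducible f
  reg : ∀ n, P.Reg (c n)
  small : ∀ n : ℕ, Sm P n (f.eval (c n))
  close : ∀ n m : ℕ, n ≤ m → Sm P n (c m - c n)

variable {P f c}

/-- eventually constant order -/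
def Ev (P : FF.Place k F) (c : ℕ → F) (g : F[X]) (m : ℤ) : Prop :=
  ∃ n0 : ℕ, ∀ n, n0 ≤ n → g.eval (c n) ≠ 0 ∧ P.ord (g.eval (c n)) = m

theorem Ev.unique {g : F[X]} {m m' : ℤ} (h : Ev P c g m) (h' : Ev P c g m') : m = m' := by
  obtain ⟨n0, h⟩ := h
  obtain ⟨n1, h'⟩ := h'
  rw [← (h (max n0 n1) (le_max_left _ _)).2, (h' (max n0 n1) (le_max_right _ _)).2]

theorem ord_eq_of_sm {x y : F} {N : ℤ} (hx : x ≠ 0) (hN : P.ord x < N) (h : Sm P N (y - x)) :
    y ≠ 0 ∧ P.ord y = P.ord x := by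
  rcases h with h | h
  · rw [sub_eq_zero.1 h]
    exact ⟨hx, rfl⟩
  · by_cases h0 : y - x = 0
    · rw [sub_eq_zero.1 h0]
      exact ⟨hx, rfl⟩
    have := P.ord_add_eq hx h0 (by omega)
    rw [add_sub_cancel] at this
    exact this

theorem exists_ev (A : Approx P f c) {g : F[X]} (hg : ¬ f ∣ g) : ∃ m : ℤ, Ev P c g m := by
  obtain ⟨u, v, huv⟩ := (A.irr.coprime_iff_not_dvd.2 hg)
  -- `u f + v g = 1`
  obtain ⟨Bu, hu, -⟩ := poly_bound P u
  obtain ⟨Bv, hv, -⟩ := poly_bound P v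
  obtain ⟨Bg, hg1, hg2⟩ := poly_bound P g
  have h1 : ∀ n : ℕ, Bu + 1 ≤ n → g.eval (c n) ≠ 0 ∧ P.ord (g.eval (c n)) ≤ Bv := by
    intro n hn
    have e : u.eval (c n) * f.eval (c n) + v.eval (c n) * g.eval (c n) = 1 := by
      rw [← eval_mul, ← eval_mul, ← eval_add, huv, eval_one]
    have e1 : Sm P 1 (u.eval (c n) * f.eval (c n)) :=
      sm_mono P (by omega) (sm_mul P (hu _ (A.reg n)) (A.small n))
    have e2 : Sm P 1 (v.eval (c n) * g.eval (c n) - 1) := by
      have : v.eval (c n) * g.eval (c n) - 1 = -(u.eval (c n) * f.eval (c n)) := by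
        rw [← e]; ring
      rw [this]
      exact sm_neg P e1
    obtain ⟨e3, e4⟩ := ord_eq_of_sm (P := P) one_ne_zero (by rw [P.ord_one]; norm_num) e2
    have e5 : v.eval (c n) ≠ 0 := left_ne_zero_of_mul e3
    have e6 : g.eval (c n) ≠ 0 := right_ne_zero_of_mul e3
    rw [P.ord_mul e5 e6, P.ord_one] at e4
    have e7 := (hv _ (A.reg n)).resolve_left e5
    exact ⟨e6, by omega⟩
  obtain ⟨n1, hn1⟩ : ∃ n1 : ℕ, Bu + 1 ≤ n1 ∧ Bv + Bg + 1 ≤ n1 := by
    refine ⟨(Bu + 1).toNat + (Bv + Bg + 1).toNat, ?_, ?_⟩ <;> push_cast <;> omega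
  refine ⟨P.ord (g.eval (c n1)), n1, fun n hn => ?_⟩
  obtain ⟨q, q1, q2⟩ := hg2 (c n) (c n1) (A.reg n) (A.reg n1)
  apply ord_eq_of_sm (P := P) (N := Bv + 1) (h1 n1 hn1.1).1
  · have := (h1 n1 hn1.1).2
    omega
  · rw [q2]
    exact sm_mono P (by omega) (sm_mul P (A.close n1 n hn) q1)

/-- `F[X]/f` -/
theorem ev_congr (A : Approx P f c) {g h : F[X]} {m : ℤ} (hd : f ∣ h - g) (hg : Ev P c g m) :
    Ev P c h m := by
  obtain ⟨v, hv⟩ := hd
  obtain ⟨Bv, hv1, -⟩ := poly_bound P v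
  obtain ⟨n0, hn0⟩ := hg
  refine ⟨max n0 (m + 1 + Bv).toNat, fun n hn => ?_⟩
  obtain ⟨a1, a2⟩ := hn0 n (le_trans (le_max_left _ _) hn)
  have hn2 : (m + 1 + Bv).toNat ≤ n := le_trans (le_max_right _ _) hn
  have e : h.eval (c n) - g.eval (c n) = f.eval (c n) * v.eval (c n) := by
    rw [← eval_sub, hv, eval_mul]
  have := ord_eq_of_sm (P := P) (N := m + 1) a1 (by omega) (y := h.eval (c n)) (by
    rw [e]
    exact sm_mono P (by omega) (sm_mul P (A.small n) (hv1 _ (A.reg n))))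
  exact ⟨this.1, this.2.trans a2⟩

/-- relation on `F[X]/f` -/
def Ew (P : FF.Place k F) (c : ℕ → F) (x : AdjoinRoot f) (m : ℤ) : Prop :=
  ∀ g : F[X], AdjoinRoot.mk f g = x → Ev P c g m

theorem exists_ew (A : Approx P f c) {x : AdjoinRoot f} (hx : x ≠ 0) : ∃ m : ℤ, Ew P c x m := by
  obtain ⟨g, rfl⟩ := AdjoinRoot.mk_surjective x
  have hg : ¬ f ∣ g := fun h => hx (AdjoinRoot.mk_eq_zero.2 h)
  obtain ⟨m, hm⟩ := exists_ev A hg
  refine ⟨m, fun h hh => ?_⟩
  exact ev_congr A (AdjoinRoot.mk_eq_mk.1 hh) hm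

open Classical in
/-- the order function on `F[X]/f` -/
noncomputable def word (A : Approx P f c) (x : AdjoinRoot f) : ℤ :=
  if hx : x = 0 then 0 else Classical.choose (exists_ew A hx)

theorem word_spec (A : Approx P f c) {g : F[X]} (hg : AdjoinRoot.mk f g ≠ 0) :
    Ev P c g (word A (AdjoinRoot.mk f g)) := by
  rw [word, dif_neg hg]
  exact Classical.choose_spec (exists_ew A hg) g rfl

theorem word_eq (A : Approx P f c) {g : F[X]} {m : ℤ} (hg : Ev P c g m) :
    word A (AdjoinRoot.mk f g) = m := by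
  have h0 : AdjoinRoot.mk f g ≠ 0 := by
    intro h0
    rw [AdjoinRoot.mk_eq_zero] at h0
    obtain ⟨v, rfl⟩ := h0
    obtain ⟨Bv, hv1, -⟩ := poly_bound P v
    obtain ⟨n0, hn0⟩ := hg
    obtain ⟨a1, a2⟩ := hn0 (max n0 (m + 1 + Bv).toNat) (le_max_left _ _)
    have hn2 : (m + 1 + Bv).toNat ≤ max n0 (m + 1 + Bv).toNat := le_max_right _ _
    have := (sm_mul P (A.small (max n0 (m + 1 + Bv).toNat))
      (hv1 _ (A.reg (max n0 (m + 1 + Bv).toNat)))).resolve_left (by rwa [← eval_mul])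
    rw [← eval_mul] at this
    omega
  exact (word_spec A h0).unique hg

/-- The place of `F[X]/f`. -/
noncomputable def wpl (A : Approx P f c) [Fact (Irreducible f)] : FF.Place k (AdjoinRoot f) where
  ord := word A
  ord_zero := by rw [word, dif_pos rfl]
  ord_mul := by
    intro x y hx hy
    obtain ⟨g, rfl⟩ := AdjoinRoot.mk_surjective x
    obtain ⟨h, rfl⟩ := AdjoinRoot.mk_surjective y
    rw [← map_mul]
    apply word_eq
    obtain ⟨n0, h0⟩ := word_spec A hx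
    obtain ⟨n1, h1⟩ := word_spec A hy
    refine ⟨max n0 n1, fun n hn => ?_⟩
    obtain ⟨a1, a2⟩ := h0 n (le_trans (le_max_left _ _) hn)
    obtain ⟨b1, b2⟩ := h1 n (le_trans (le_max_right _ _) hn)
    rw [eval_mul]
    exact ⟨mul_ne_zero a1 b1, by rw [P.ord_mul a1 b1, a2, b2]⟩
  ord_add := by
    intro x y hx hy hxy
    obtain ⟨g, rfl⟩ := AdjoinRoot.mk_surjective x
    obtain ⟨h, rfl⟩ := AdjoinRoot.mk_surjective y
    rw [← map_add] at hxy ⊢
    obtain ⟨n0, h0⟩ := word_spec A hx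
    obtain ⟨n1, h1⟩ := word_spec A hy
    obtain ⟨n2, h2⟩ := word_spec A hxy
    obtain ⟨n, hn0, hn1, hn2⟩ : ∃ n, n0 ≤ n ∧ n1 ≤ n ∧ n2 ≤ n :=
      ⟨max n0 (max n1 n2), by omega, by omega, by omega⟩
    obtain ⟨a1, a2⟩ := h0 n hn0
    obtain ⟨b1, b2⟩ := h1 n hn1
    obtain ⟨c1, c2⟩ := h2 n hn2
    rw [← a2, ← b2, ← c2]
    rw [eval_add] at c1 ⊢
    exact P.ord_add a1 b1 c1
  ord_const := by
    intro a ha
    have e : algebraMap k (AdjoinRoot f) a = AdjoinRoot.mk f (C (algebraMap k F a)) := by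
      rw [IsScalarTower.algebraMap_apply k F (AdjoinRoot f)]
      rfl
    rw [e]
    apply word_eq
    refine ⟨0, fun n _ => ?_⟩
    rw [eval_C]
    exact ⟨by simpa using ha, P.ord_const ha⟩
  surj := by
    obtain ⟨t, ht0, ht⟩ := P.surj
    refine ⟨AdjoinRoot.mk f (C t), ?_, ?_⟩
    · intro h
      have h1 : (AdjoinRoot.of f) t = 0 := h
      exact ht0 ((map_eq_zero _).1 h1)
    · apply word_eq
      refine ⟨0, fun n _ => ?_⟩
      rw [eval_C]
      exact ⟨ht0, ht⟩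

end ext

end Pool.Agent.H123R3.ZT
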