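import Pool.Agent.KS6_3.ZL.H123R3.ZT.Const1

/-! Residue degree of the place `wpl`; Newton approximation. -/

set_option autoImplicit false

open Polynomial

namespace Pool.Agent.H123R3.ZT

section ext

variable {k F : Type} [Field k] [Field F] [Algebra k F] {P : FF.Place k F} {f : F[X]}
  {c : ℕ → F} (A : Approx P f c) [Fact (Irreducible f)]

theorem wpl_alg (a : F) : (wpl A).ord (algebraMap F (AdjoinRoot f) a) = P.ord a := by
  by_cases h : a = 0
  · rw [h, map_zero, P.ord_zero, (wpl A).ord_zero]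
  · apply word_eq A (g := C a)
    refine ⟨0, fun n _ => ?_⟩
    rw [eval_C]
    exact ⟨h, rfl⟩

theorem wpl_reg {a : F} (h : P.Reg a) : (wpl A).Reg (algebraMap F (AdjoinRoot f) a) := by
  rcases h with rfl | h
  · left; exact map_zero _
  · right; rwa [wpl_alg]

/-- every regular element is congruent to a regular element of `F` -/
theorem wpl_approx {x : AdjoinRoot f} (hx : (wpl A).Reg x) :
    ∃ a : F, P.Reg a ∧ (wpl A).red x = (wpl A).red (algebraMap F (AdjoinRoot f) a) := by
  by_cases h0 : x = 0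
  · exact ⟨0, P.reg_zero, by rw [h0, map_zero]⟩
  have hx' := ((wpl A).reg_iff h0).1 hx
  obtain ⟨g, rfl⟩ := AdjoinRoot.mk_surjective x
  obtain ⟨n0, hn0⟩ := word_spec A h0
  obtain ⟨Bg, -, hg⟩ := poly_bound P g
  obtain ⟨n, hn, hn2⟩ : ∃ n : ℕ, n0 ≤ n ∧ Bg + 1 ≤ n :=
    ⟨max n0 (Bg + 1).toNat, le_max_left _ _, by
      have := le_max_right n0 (Bg + 1).toNat
      omega⟩
  obtain ⟨a1, a2⟩ := hn0 n hn
  have hra : P.Reg (g.eval (c n)) := Or.inr (by rw [a2]; exact hx')
  refine ⟨g.eval (c n), hra, ?_⟩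
  rw [← sub_eq_zero, ← (wpl A).red_sub hx (wpl_reg A hra)]
  have hr := (wpl A).reg_add hx ((wpl A).reg_neg (wpl_reg A hra))
  rw [← sub_eq_add_neg] at hr
  rw [(wpl A).red_eq_zero_iff hr]
  by_cases hy : AdjoinRoot.mk f g - algebraMap F (AdjoinRoot f) (g.eval (c n)) = 0
  · exact Or.inl hy
  right
  have e : AdjoinRoot.mk f g - algebraMap F (AdjoinRoot f) (g.eval (c n)) =
      AdjoinRoot.mk f (g - C (g.eval (c n))) := by
    rw [map_sub]; rfl
  rw [e] at hy ⊢
  obtain ⟨m0, hm0⟩ := word_spec A hy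
  obtain ⟨b1, b2⟩ := hm0 (max m0 n) (le_max_left _ _)
  have e2 : (wpl A).ord (AdjoinRoot.mk f (g - C (g.eval (c n)))) =
      word A (AdjoinRoot.mk f (g - C (g.eval (c n)))) := rfl
  rw [e2, ← b2]
  obtain ⟨q, q1, q2⟩ := hg (c (max m0 n)) (c n) (A.reg _) (A.reg _)
  have e3 : (g - C (g.eval (c n))).eval (c (max m0 n)) = (c (max m0 n) - c n) * q := by
    rw [eval_sub, eval_C, q2]
  rw [e3] at b1 ⊢
  have := (sm_mul P (A.close n (max m0 n) (le_max_right _ _)) q1).resolve_left b1
  omega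

theorem wpl_deg : (wpl A).deg = P.deg := by
  let φ : P.O →+* AdjoinRoot f := (algebraMap F (AdjoinRoot f)).comp P.O.subtype
  have hφ : ∀ a : P.O, (wpl A).Reg (φ a) := fun a => wpl_reg A a.2
  let ψ : P.O →+* (wpl A).RF := (wpl A).redHom φ hφ
  have hloc : IsLocalHom ψ := by
    constructor
    intro a ha
    have h1 : ψ a ≠ 0 := ha.ne_zero
    have h2 : (wpl A).red (algebraMap F (AdjoinRoot f) a.1) ≠ 0 := h1
    obtain ⟨a, hra⟩ := a
    rw [P.isUnit_O_iff hra]
    have h3 : ¬ (algebraMap F (AdjoinRoot f) a = 0 ∨ 0 < (wpl A).ord (algebraMap F (AdjoinRoot f) a)) :=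
      fun h => h2 (((wpl A).red_eq_zero_iff (hφ ⟨a, hra⟩)).2 h)
    push Not at h3
    have h4 : a ≠ 0 := fun h => h3.1 (by rw [h, map_zero])
    refine ⟨h4, ?_⟩
    have h5 := h3.2
    rw [wpl_alg] at h5
    have h6 := (P.reg_iff h4).1 hra
    omega
  let Ψ : P.RF →+* (wpl A).RF := IsLocalRing.ResidueField.lift ψ
  have hΨ : ∀ a : F, P.Reg a → Ψ (P.red a) = (wpl A).red (algebraMap F (AdjoinRoot f) a) := by
    intro a ha
    rw [P.red_of_reg ha]
    exact IsLocalRing.ResidueField.lift_residue_apply ψ ⟨a, ha⟩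
  have hsurj : Function.Surjective Ψ := by
    intro y
    obtain ⟨x, hx, rfl⟩ := (wpl A).red_surjective y
    obtain ⟨a, ha, he⟩ := wpl_approx A hx
    exact ⟨P.red a, by rw [hΨ a ha, he]⟩
  unfold FF.Place.deg
  refine (Algebra.finrank_eq_of_equiv_equiv (RingEquiv.refl k)
    (RingEquiv.ofBijective Ψ ⟨Ψ.injective, hsurj⟩) ?_).symm
  ext a
  simp only [RingHom.comp_apply]
  show (algebraMap k (wpl A).RF) a = Ψ (algebraMap k P.RF a)
  rw [P.algebraMap_RF, (wpl A).algebraMap_RF, hΨ _ (P.reg_const a),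
    ← IsScalarTower.algebraMap_apply]

/-- the root is congruent to the approximations -/
theorem wpl_root {x : F} (h : ∀ n, Sm P 1 (c n - x)) :
    Sm (wpl A) 1 (AdjoinRoot.root f - algebraMap F (AdjoinRoot f) x) := by
  have e : AdjoinRoot.root f - algebraMap F (AdjoinRoot f) x = AdjoinRoot.mk f (X - C x) := by
    rw [map_sub]; rfl
  by_cases h0 : AdjoinRoot.root f - algebraMap F (AdjoinRoot f) x = 0
  · exact Or.inl h0
  right
  rw [e] at h0 ⊢
  obtain ⟨m0, hm0⟩ := word_spec A h0
  obtain ⟨b1, b2⟩ := hm0 m0 le_rfl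
  have e2 : (wpl A).ord (AdjoinRoot.mk f (X - C x)) = word A (AdjoinRoot.mk f (X - C x)) := rfl
  rw [e2, ← b2]
  rw [eval_sub, eval_X, eval_C] at b1 ⊢
  exact (h m0).resolve_left b1

end ext

section newton

variable {k F : Type} [Field k] [Field F] [Algebra k F] (P : FF.Place k F)

/-- constants in the valuation ring -/
noncomputable def kO : k →+* P.O := (algebraMap k F).codRestrict P.O.toSubring (fun a => P.reg_const a)

theorem res_kO (a : k) : P.resHom (kO P a) = algebraMap k P.RF a := by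
  rw [P.algebraMap_RF, P.red_of_reg (P.reg_const a)]
  rfl

theorem unit_of_res {a : P.O} (h : P.resHom a ≠ 0) : ∃ b : P.O, a * b = 1 := by
  have : IsUnit a := by
    by_contra hc
    apply h
    change IsLocalRing.residue P.O a = 0
    rw [IsLocalRing.residue_eq_zero_iff]
    exact hc
  obtain ⟨u, rfl⟩ := this
  exact ⟨_, u.mul_inv⟩

theorem sm_O {N : ℤ} (a : P.O) {x : F} (h : Sm P N x) : Sm P N (a.1 * x) := by
  have := sm_mul P (N := 0) (M := N) a.2 h
  simpa using this

theorem res_zero_of_sm {a : P.O} (h : Sm P 1 a.1) : P.resHom a = 0 := by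
  have h1 : P.red a.1 = 0 := by
    rw [P.red_eq_zero_iff a.2]
    rcases h with h | h
    · exact Or.inl h
    · exact Or.inr (by omega)
  rwa [P.red_of_reg a.2] at h1

theorem sm_of_res_zero {a : P.O} (h : P.resHom a = 0) : Sm P 1 a.1 := by
  have h1 : P.red a.1 = 0 := by
    rw [P.red_of_reg a.2]; exact h
  rw [P.red_eq_zero_iff a.2] at h1
  rcases h1 with h | h
  · exact Or.inl h
  · exact Or.inr (by omega)

theorem newton (f0 : k[X]) {r : P.RF} (hr : (f0.map (algebraMap k P.RF)).eval r = 0)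
    (hd : (f0.derivative.map (algebraMap k P.RF)).eval r ≠ 0) :
    ∀ n : ℕ, ∃ x : P.O, P.resHom x = r ∧ Sm P (n + 1) ((f0.map (kO P)).eval x).1 := by
  have hev : ∀ (g : k[X]) (x : P.O), P.resHom x = r →
      P.resHom ((g.map (kO P)).eval x) = (g.map (algebraMap k P.RF)).eval r := by
    intro g x hx
    rw [eval_map, eval_map, hom_eval₂, hx]
    congr 1
    ext a
    exact res_kO P a
  intro n
  induction n with
  | zero =>
    obtain ⟨x, hx⟩ := P.resHom_surjective r
    refine ⟨x, hx, ?_⟩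
    have := sm_of_res_zero P (a := (f0.map (kO P)).eval x) (by rw [hev f0 x hx, hr])
    simpa using this
  | succ n ih =>
    obtain ⟨x, hx, hs⟩ := ih
    obtain ⟨b, hb⟩ := unit_of_res P (a := (f0.derivative.map (kO P)).eval x)
      (by rw [hev _ x hx]; exact hd)
    obtain ⟨κ, hκ⟩ := (f0.map (kO P)).binomExpansion x (-(f0.map (kO P)).eval x * b)
    have hh : Sm P (n + 1) (-(f0.map (kO P)).eval x * b : P.O).1 := by
      have := sm_neg P (sm_O P b hs)
      convert this using 1
      push_cast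
      ring
    refine ⟨x + -(f0.map (kO P)).eval x * b, ?_, ?_⟩
    · rw [map_add, hx, res_zero_of_sm P (sm_mono P (by omega) hh), add_zero]
    · rw [hκ]
      have e : eval x (map (kO P) f0) + eval x (derivative (map (kO P) f0)) *
          (-eval x (map (kO P) f0) * b) + κ * (-eval x (map (kO P) f0) * b) ^ 2 =
          κ * (-eval x (map (kO P) f0) * b) ^ 2 := by
        rw [derivative_map]
        linear_combination (-eval x (map (kO P) f0)) * hb
      rw [e]
      have h2 := sm_O P κ (sm_mul P hh hh)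
      refine sm_mono P (N := (n + 1 : ℤ) + (n + 1)) (by push_cast; omega) ?_
      convert h2 using 1
      push_cast
      ring

theorem newton_close (f0 : k[X]) {r : P.RF}
    (hd : (f0.derivative.map (algebraMap k P.RF)).eval r ≠ 0) {x y : P.O} (hx : P.resHom x = r)
    (hy : P.resHom y = r) {N : ℤ} (h1 : Sm P N ((f0.map (kO P)).eval x).1)
    (h2 : Sm P N ((f0.map (kO P)).eval y).1) : Sm P N (x.1 - y.1) := by
  have hev : ∀ (g : k[X]) (x : P.O), P.resHom x = r →
      P.resHom ((g.map (kO P)).eval x) = (g.map (algebraMap k P.RF)).eval r := by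
    intro g x hx
    rw [eval_map, eval_map, hom_eval₂, hx]
    congr 1
    ext a
    exact res_kO P a
  obtain ⟨κ, hκ⟩ := (f0.map (kO P)).binomExpansion y (x - y)
  rw [add_sub_cancel] at hκ
  obtain ⟨b, hb⟩ := unit_of_res P (a := (f0.derivative.map (kO P)).eval y + κ * (x - y)) (by
    rw [map_add, hev _ y hy, map_mul, map_sub, hx, hy, sub_self, mul_zero, add_zero]
    exact hd)
  have e : x - y = b * ((f0.map (kO P)).eval x - (f0.map (kO P)).eval y) := by
    rw [hκ, derivative_map]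
    linear_combination (-(x - y)) * hb
  have e1 : x.1 - y.1 = b.1 * (((f0.map (kO P)).eval x).1 - ((f0.map (kO P)).eval y).1) :=
    congrArg Subtype.val e
  rw [e1]
  exact sm_O P b (sm_sub P h1 h2)

end newton

end Pool.Agent.H123R3.ZT
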